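import Pool.Agent.N427.PT.Chain
import Pool.Agent.W860.PC.Final
set_option autoImplicit false

/-! Weak Marton theorem in every abelian group, odd torsion included. -/

namespace Pool.Agent.N427.PT

open Finset
open scoped Pointwise

variable {G : Type*} [AddCommGroup G]

/-- **Weak Marton theorem, all abelian groups.** `p₀` is a lower bound for the torsion primes. -/
theorem weak_all [DecidableEq G] {K : ℝ} {A : Finset G} (hA : A.Nonempty)
    (hK : ((A + A).card : ℝ) ≤ K * A.card) {η : ℝ} (hη0 : 0 < η) (hη1 : η ≤ 1)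
    {p₀ : ℕ} (hp₀ : 2 ≤ p₀)
    (hprime : ∀ p : ℕ, p.Prime → p < p₀ → ∀ x : G, p • x = 0 → x = 0) :
    ∃ (H : AddSubgroup G) (S T : Finset G), Finite H ∧ Nat.card H ≤ A.card ∧
      (S.card : ℝ) ≤ 30000 / η * (Real.log (2 * K) + Real.log (2 * K) ^ (1 + η) / Real.log p₀) + 1 ∧
      (T.card : ℝ) ≤ (2 * K) ^ (30000 / η) ∧
      ∀ a ∈ A, ∃ t ∈ T, a - t ∈ H ⊔ AddSubgroup.closure (S : Set G) := by
  classical
  obtain ⟨r, B, θ, H, T, hr, hB, hHfin, hvol, hT, hcov⟩ := W860.PC.poly_cover hA hK hη0 hη1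
  have hApos : (0 : ℝ) < A.card := by exact_mod_cast hA.card_pos
  have hK1 : 1 ≤ K := by
    have h1 : (A.card : ℝ) ≤ (A + A).card := by
      exact_mod_cast Finset.card_le_card_add_right hA
    nlinarith
  obtain ⟨κ, hκ⟩ : ∃ κ : ℝ, κ = Real.log (2 * K) := ⟨_, rfl⟩
  rw [← hκ] at hr hvol ⊢
  have hκlog2 : Real.log 2 ≤ κ := by
    rw [hκ]; exact Real.log_le_log (by norm_num) (by linarith)
  have hκ69 : (0.69 : ℝ) < κ := by
    have := Real.log_two_gt_d9
    linarith
  have hκ0 : 0 < κ := by linarith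
  have hp1 : (1 : ℝ) < p₀ := by exact_mod_cast (by omega : 1 < p₀)
  have hlp : 0 < Real.log p₀ := Real.log_pos hp1
  have hprime' : ∀ p : ℕ, p.Prime → (p : ℝ) < (p₀ : ℝ) → ∀ x : G, p • x = 0 → x = 0 := by
    intro p hp hlt
    exact hprime p hp (by exact_mod_cast hlt)
  have hAc : 1 ≤ A.card := hA.card_pos
  obtain ⟨H', S, h1, h2, h3, h4⟩ := chain hp1.le hprime' hAc (Nat.card H) H hHfin rfl
  have hH'fin : Finite H' := Finite.Set.subset (H : Set G) h1
  have hHle : (Nat.card H : ℝ) ≤ Real.exp (30000 / η * κ ^ (1 + η)) * A.card := by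
    have hfin : {c : Fin r → ℤ | (fun i => (c i : ℝ)) ∈ B}.Finite :=
      Pool.Agent.Y806.DF.lat_finite hB.2.1.isBounded
    have hlat : 1 ≤ {c : Fin r → ℤ | (fun i => (c i : ℝ)) ∈ B}.ncard := by
      rw [Nat.one_le_iff_ne_zero, ← Nat.pos_iff_ne_zero, Set.ncard_pos hfin]
      refine ⟨0, ?_⟩
      obtain ⟨hc, -, ⟨y, hy⟩, hs⟩ := hB
      have hy' : y ∈ B := interior_subset hy
      have h5 := hc hy' (hs y hy') (a := 1 / 2) (b := 1 / 2) (by norm_num) (by norm_num) (by norm_num)
      have e : (fun i => (((0 : Fin r → ℤ) i : ℤ) : ℝ)) = 0 := by funext i; simp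
      show (fun i => (((0 : Fin r → ℤ) i : ℤ) : ℝ)) ∈ B
      rw [e]
      simpa using h5
    refine le_trans ?_ hvol
    exact_mod_cast Nat.le_mul_of_pos_left _ hlat
  have hScard : (S.card : ℝ) ≤ 30000 / η * (κ ^ (1 + η) / Real.log p₀) + 1 := by
    rcases h4 with h4 | h4
    · rw [h4]
      have : 0 ≤ 30000 / η * (κ ^ (1 + η) / Real.log p₀) := by positivity
      push_cast
      linarith
    · have h5 : (p₀ : ℝ) ^ (S.card - 1) ≤ Real.exp (30000 / η * κ ^ (1 + η)) := by
        have h6 := h4.trans hHle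
        exact le_of_mul_le_mul_right h6 hApos
      have h6 : ((S.card - 1 : ℕ) : ℝ) * Real.log p₀ ≤ 30000 / η * κ ^ (1 + η) := by
        have := Real.log_le_log (by positivity) h5
        rwa [Real.log_pow, Real.log_exp] at this
      have h6' : ((S.card - 1 : ℕ) : ℝ) ≤ 30000 / η * (κ ^ (1 + η) / Real.log p₀) := by
        rw [← mul_div_assoc, le_div_iff₀ hlp]
        exact h6
      have h7 : (S.card : ℝ) ≤ ((S.card - 1 : ℕ) : ℝ) + 1 := by
        have : S.card ≤ (S.card - 1) + 1 := by omega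
        exact_mod_cast this
      linarith
  set S' : Finset G := S ∪ Finset.univ.image (fun i : Fin r => θ (Pi.single i 1)) with hS'
  refine ⟨H', S', T, hH'fin, h2, ?_, hT, ?_⟩
  · have h5 : (S'.card : ℝ) ≤ S.card + r := by
      have h6 : S'.card ≤ S.card + r := by
        refine (Finset.card_union_le _ _).trans ?_
        have h7 := Finset.card_image_le (s := (Finset.univ : Finset (Fin r)))
          (f := fun i : Fin r => θ (Pi.single i 1))
        rw [Finset.card_univ, Fintype.card_fin] at h7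
        omega
      exact_mod_cast h6
    rw [mul_add]
    linarith
  · intro a ha
    obtain ⟨t, ht, v, hv, h, hh, e⟩ := hcov a ha
    refine ⟨t, ht, ?_⟩
    have e1 : a - t = h + θ v := by rw [e]; abel
    rw [e1]
    have hHS : H ≤ H' ⊔ AddSubgroup.closure (S' : Set G) := by
      rw [h3]
      exact sup_le_sup_left (AddSubgroup.closure_mono (by
        rw [hS', Finset.coe_union]; exact Set.subset_union_left)) _
    refine add_mem (hHS hh) ?_
    have hθ : θ v = ∑ i, v i • θ (Pi.single i 1) := by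
      conv_lhs => rw [← Finset.univ_sum_single v]
      rw [map_sum]
      refine Finset.sum_congr rfl fun i _ => ?_
      rw [← map_zsmul]
      congr 1
      funext k
      by_cases hk : k = i
      · subst hk; simp
      · simp [hk]
    rw [hθ]
    refine (AddSubgroup.closure (S' : Set G)).sum_mem (fun i _ => ?_) |> fun h =>
      (le_sup_right : AddSubgroup.closure (S' : Set G) ≤ _) h
    refine AddSubgroup.zsmul_mem _ (AddSubgroup.subset_closure ?_) _
    rw [Finset.mem_coe, hS', Finset.mem_union]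
    exact Or.inr (Finset.mem_image.2 ⟨i, Finset.mem_univ _, rfl⟩)

end Pool.Agent.N427.PT
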