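import Pool.Agent.N427.PT.Main
set_option autoImplicit false

/-! Groups with large torsion primes. -/

namespace Pool.Agent.N427.PT

open Finset
open scoped Pointwise
open Pool.Agent.Y806.DF (Body lat Cov re)

variable {G : Type*} [AddCommGroup G]

/-- a finite group has a subgroup of index at least `p₀` with one more generator -/
theorem step {p₀ : ℝ} (hprime : ∀ p : ℕ, p.Prime → (p : ℝ) < p₀ → ∀ x : G, p • x = 0 → x = 0)
    (H : AddSubgroup G) [Finite H] (hH : 1 < Nat.card H) :
    ∃ (H₁ : AddSubgroup G) (x : G), H₁ ≤ H ∧ Nat.card H₁ < Nat.card H ∧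
      p₀ * Nat.card H₁ ≤ Nat.card H ∧ H = H₁ ⊔ AddSubgroup.closure {x} := by
  classical
  have hnt : Nontrivial H := Finite.one_lt_card_iff_nontrivial.1 hH
  have hbt : (⊥ : AddSubgroup H) ≠ ⊤ := bot_ne_top
  obtain ⟨M, hM, -⟩ := (IsCoatomic.eq_top_or_exists_le_coatom (⊥ : AddSubgroup H)).resolve_left hbt
  obtain ⟨x, hx⟩ : ∃ x : H, x ∉ M := by
    by_contra hcon
    push Not at hcon
    exact hM.1 (eq_top_iff.2 fun y _ => hcon y)
  have htop : M ⊔ AddSubgroup.closure {x} = ⊤ := by
    apply hM.2
    refine lt_of_le_of_ne le_sup_left ?_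
    intro h
    apply hx
    rw [h]
    exact (le_sup_right : AddSubgroup.closure {x} ≤ _) (AddSubgroup.subset_closure rfl)
  have hinj : Function.Injective H.subtype := H.subtype_injective
  have hcard : Nat.card (M.map H.subtype) = Nat.card M :=
    Nat.card_congr (M.equivMapOfInjective H.subtype hinj).toEquiv.symm
  have hmul : Nat.card M * M.index = Nat.card H := AddSubgroup.card_mul_index M
  have hMpos : 0 < Nat.card M := Nat.card_pos
  have hHpos : 0 < Nat.card H := Nat.card_pos
  have hidx1 : M.index ≠ 1 := by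
    intro h
    rw [AddSubgroup.index_eq_one] at h
    exact hM.1 h
  have hidx0 : M.index ≠ 0 := by
    intro h
    rw [h, mul_zero] at hmul
    omega
  have hp := Nat.minFac_prime hidx1
  have hdvd : M.index.minFac ∣ Nat.card H :=
    (Nat.minFac_dvd _).trans ⟨Nat.card M, by rw [← hmul, mul_comm]⟩
  have : Fact (M.index.minFac).Prime := ⟨hp⟩
  obtain ⟨y, hy⟩ := exists_prime_addOrderOf_dvd_card' (G := H) M.index.minFac hdvd
  have hp0 : p₀ ≤ M.index.minFac := by
    by_contra hcon
    push Not at hcon
    have h1 : M.index.minFac • y = 0 := by rw [← hy]; exact addOrderOf_nsmul_eq_zero y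
    have h2 : M.index.minFac • (y : G) = 0 := by
      have := congrArg Subtype.val h1
      simpa using this
    have h3 := hprime _ hp hcon _ h2
    have h4 : y = 0 := Subtype.ext h3
    rw [h4, addOrderOf_zero] at hy
    exact hp.one_lt.ne hy
  have hp0' : p₀ ≤ M.index :=
    hp0.trans (by exact_mod_cast Nat.minFac_le (Nat.pos_of_ne_zero hidx0))
  refine ⟨M.map H.subtype, x, ?_, ?_, ?_, ?_⟩
  · rintro _ ⟨z, -, rfl⟩
    exact z.2
  · rw [hcard, ← hmul]
    have : 1 < M.index := by omega
    nlinarith
  · rw [hcard, ← hmul]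
    push_cast
    rw [mul_comm]
    exact mul_le_mul_of_nonneg_left hp0' (Nat.cast_nonneg _)
  · have h1 := congrArg (AddSubgroup.map H.subtype) htop
    rw [AddSubgroup.map_sup, AddMonoidHom.map_closure, Set.image_singleton] at h1
    rw [← AddMonoidHom.range_eq_map, AddSubgroup.range_subtype] at h1
    exact h1.symm

/-- a finite group is generated by a subgroup of order at most `a` and few elements -/
theorem chain {p₀ : ℝ} (hp₀ : 1 ≤ p₀)
    (hprime : ∀ p : ℕ, p.Prime → (p : ℝ) < p₀ → ∀ x : G, p • x = 0 → x = 0)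
    {a : ℕ} (ha : 1 ≤ a) (n : ℕ) :
    ∀ (H : AddSubgroup G), Finite H → Nat.card H = n →
    ∃ (H' : AddSubgroup G) (S : Finset G), H' ≤ H ∧ Nat.card H' ≤ a ∧
      H = H' ⊔ AddSubgroup.closure (S : Set G) ∧
      (S.card = 0 ∨ p₀ ^ (S.card - 1) * a ≤ Nat.card H) := by
  classical
  induction n using Nat.strong_induction_on with
  | _ n ih =>
    intro H hHfin hcard
    rcases le_or_gt n a with h | h
    · refine ⟨H, ∅, le_rfl, by omega, ?_, Or.inl rfl⟩
      rw [Finset.coe_empty, AddSubgroup.closure_empty, sup_bot_eq]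
    · obtain ⟨H₁, x, h1, h2, h3, h4⟩ := step hprime H (by omega)
      have hfin1 : Finite H₁ := Finite.Set.subset (H : Set G) h1
      obtain ⟨H', S, h5, h6, h7, h8⟩ := ih (Nat.card H₁) (by omega) H₁ hfin1 rfl
      refine ⟨H', insert x S, h5.trans h1, h6, ?_, Or.inr ?_⟩
      · rw [Finset.coe_insert, Set.insert_eq, AddSubgroup.closure_union]
        calc H = H₁ ⊔ AddSubgroup.closure {x} := h4
          _ = H' ⊔ AddSubgroup.closure (S : Set G) ⊔ AddSubgroup.closure {x} := by rw [← h7]
          _ = H' ⊔ (AddSubgroup.closure {x} ⊔ AddSubgroup.closure (S : Set G)) := by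
              rw [sup_assoc, sup_comm (AddSubgroup.closure (S : Set G))]
      · have hins : (insert x S).card ≤ S.card + 1 := Finset.card_insert_le x S
        have hah : (a : ℝ) ≤ Nat.card H := by
          rw [hcard]; exact_mod_cast h.le
        rcases h8 with h8 | h8
        · have e : (insert x S).card - 1 = 0 := by omega
          rw [e, pow_zero, one_mul]
          exact hah
        · rcases Nat.eq_zero_or_pos S.card with h9 | h9
          · have e : (insert x S).card - 1 = 0 := by omega
            rw [e, pow_zero, one_mul]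
            exact hah
          · have h10 : p₀ ^ ((insert x S).card - 1) ≤ p₀ ^ (S.card) :=
              pow_le_pow_right₀ hp₀ (by omega)
            have h11 : p₀ ^ S.card = p₀ * p₀ ^ (S.card - 1) := by
              rw [← pow_succ']
              congr 1
              omega
            calc p₀ ^ ((insert x S).card - 1) * a ≤ p₀ ^ (S.card) * a :=
                  mul_le_mul_of_nonneg_right h10 (Nat.cast_nonneg _)
              _ = p₀ * (p₀ ^ (S.card - 1) * a) := by rw [h11]; ring
              _ ≤ p₀ * Nat.card H₁ := mul_le_mul_of_nonneg_left h8 (by linarith)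
              _ ≤ Nat.card H := h3

/-- **Weak Marton theorem for groups with large torsion primes.** -/
theorem large_primes [DecidableEq G] {K : ℝ} {A : Finset G} (hA : A.Nonempty)
    (hK : ((A + A).card : ℝ) ≤ K * A.card) {η : ℝ} (hη0 : 0 < η) (hη1 : η ≤ 1)
    (hprime : ∀ p : ℕ, p.Prime → Real.log p < Real.log (2 * K) ^ η → ∀ x : G, p • x = 0 → x = 0) :
    ∃ (H : AddSubgroup G) (S T : Finset G), Finite H ∧ Nat.card H ≤ A.card ∧
      (S.card : ℝ) ≤ 30000000000 / η * Real.log (2 * K) ∧
      (T.card : ℝ) ≤ (2 * K) ^ (5000 / η) ∧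
      ∀ a ∈ A, ∃ t ∈ T, a - t ∈ H ⊔ AddSubgroup.closure (S : Set G) := by
  classical
  obtain ⟨r, B, θ, H, T, hr, hB, hBfin, hHfin, hvol, hT, hcov⟩ := main hA hK hη0 hη1
  have hApos : (0 : ℝ) < A.card := by exact_mod_cast hA.card_pos
  have hK1 : 1 ≤ K := by
    have h1 : (A.card : ℝ) ≤ (A + A).card := by
      exact_mod_cast Finset.card_le_card_add_right hA
    nlinarith
  obtain ⟨κ, hκ⟩ : ∃ κ : ℝ, κ = Real.log (2 * K) := ⟨_, rfl⟩
  rw [← hκ] at hr hvol hprime ⊢
  have hκlog2 : Real.log 2 ≤ κ := by
    rw [hκ]; exact Real.log_le_log (by norm_num) (by linarith)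
  have hκ69 : (0.69 : ℝ) < κ := by
    have := Real.log_two_gt_d9
    linarith
  have hκ0 : 0 < κ := by linarith
  have hκη0 : 0 < κ ^ η := Real.rpow_pos_of_pos hκ0 _
  have hprime' : ∀ p : ℕ, p.Prime → (p : ℝ) < Real.exp (κ ^ η) → ∀ x : G, p • x = 0 → x = 0 := by
    intro p hp hlt
    apply hprime p hp
    rw [Real.log_lt_iff_lt_exp (by exact_mod_cast hp.pos)]
    exact hlt
  have hAc : 1 ≤ A.card := hA.card_pos
  obtain ⟨H', S, h1, h2, h3, h4⟩ := chain (Real.one_le_exp hκη0.le) hprime' hAc (Nat.card H) H hHfin rfl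
  have hH'fin : Finite H' := Finite.Set.subset (H : Set G) h1
  -- `1 ≤ |lat B|`
  have hlat : 1 ≤ (lat B).ncard := by
    rw [Nat.one_le_iff_ne_zero, ← Nat.pos_iff_ne_zero, Set.ncard_pos hBfin]
    refine ⟨0, ?_⟩
    obtain ⟨hc, -, ⟨y, hy⟩, hs⟩ := hB
    have hy' : y ∈ B := interior_subset hy
    have h5 := hc hy' (hs y hy') (a := 1 / 2) (b := 1 / 2) (by norm_num) (by norm_num) (by norm_num)
    show re 0 ∈ B
    have e : re (0 : Fin r → ℤ) = 0 := by funext i; simp [re]
    rw [e]
    simpa using h5
  have hHle : (Nat.card H : ℝ) ≤ Real.exp (20000000000 / η * κ ^ (1 + η)) * A.card := by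
    refine le_trans ?_ hvol
    have : (1 : ℝ) ≤ (lat B).ncard := by exact_mod_cast hlat
    nlinarith [(Nat.cast_nonneg (Nat.card H) : (0 : ℝ) ≤ Nat.card H)]
  have hScard : (S.card : ℝ) ≤ 20000000000 / η * κ + 1 := by
    rcases h4 with h4 | h4
    · rw [h4]
      have : 0 ≤ 20000000000 / η * κ := by positivity
      push_cast
      linarith
    · have h5 : Real.exp (κ ^ η) ^ (S.card - 1) ≤ Real.exp (20000000000 / η * κ ^ (1 + η)) := by
        have h6 := h4.trans hHle
        exact le_of_mul_le_mul_right h6 hApos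
      rw [← Real.exp_nat_mul, Real.exp_le_exp, Real.rpow_add hκ0, Real.rpow_one] at h5
      have h6 : ((S.card - 1 : ℕ) : ℝ) ≤ 20000000000 / η * κ := by
        have : 20000000000 / η * (κ * κ ^ η) = (20000000000 / η * κ) * κ ^ η := by ring
        rw [this] at h5
        exact le_of_mul_le_mul_right h5 hκη0
      have h7 : (S.card : ℝ) ≤ ((S.card - 1 : ℕ) : ℝ) + 1 := by
        have : S.card ≤ (S.card - 1) + 1 := by omega
        exact_mod_cast this
      linarith
  set S' : Finset G := S ∪ Finset.univ.image (fun i : Fin r => θ (Pi.single i 1)) with hS'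
  refine ⟨H', S', T, hH'fin, h2, ?_, hT, ?_⟩
  · have h5 : (S'.card : ℝ) ≤ S.card + r := by
      have h6 : S'.card ≤ S.card + r := by
        refine (Finset.card_union_le _ _).trans ?_
        have h7 := Finset.card_image_le (s := (Finset.univ : Finset (Fin r)))
          (f := fun i : Fin r => θ (Pi.single i 1))
        rw [Finset.card_univ, Fintype.card_fin] at h7
        omega
      exact_mod_cast h6
    have hκη : κ ≤ κ / η := by
      rw [le_div_iff₀ hη0]; nlinarith
    have e1 : 20000000000 / η * κ = 20000000000 * (κ / η) := by ring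
    have e2 : 13000 / η * κ = 13000 * (κ / η) := by ring
    have e3 : 30000000000 / η * κ = 30000000000 * (κ / η) := by ring
    rw [e1] at hScard
    rw [e2] at hr
    rw [e3]
    linarith
  · intro a ha
    obtain ⟨t, ht, v, hv, h, hh, e⟩ := hcov a ha
    refine ⟨t, ht, ?_⟩
    have e1 : a - t = h + θ v := by rw [e]; abel
    rw [e1]
    have hHS : H ≤ H' ⊔ AddSubgroup.closure (S' : Set G) := by
      rw [h3]
      exact sup_le_sup_left (AddSubgroup.closure_mono (by
        rw [hS', Finset.coe_union]; exact Set.subset_union_left)) _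
    refine add_mem (hHS hh) ?_
    have hθ : θ v = ∑ i, v i • θ (Pi.single i 1) := by
      conv_lhs => rw [← Finset.univ_sum_single v]
      rw [map_sum]
      refine Finset.sum_congr rfl fun i _ => ?_
      rw [← map_zsmul]
      congr 1
      funext k
      by_cases hk : k = i
      · subst hk; simp
      · simp [hk]
    rw [hθ]
    refine (AddSubgroup.closure (S' : Set G)).sum_mem (fun i _ => ?_) |> fun h =>
      (le_sup_right : AddSubgroup.closure (S' : Set G) ≤ _) h
    refine AddSubgroup.zsmul_mem _ (AddSubgroup.subset_closure ?_) _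
    rw [Finset.mem_coe, hS', Finset.mem_union]
    exact Or.inr (Finset.mem_image.2 ⟨i, Finset.mem_univ _, rfl⟩)

end Pool.Agent.N427.PT
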