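import Mathlib
set_option autoImplicit false

/-! Choice of the parameter. -/

namespace Pool.Agent.N427.PT

theorem exp_six : Real.exp 6 ≤ 404 := by
  have h := Real.exp_one_lt_d9
  have e : Real.exp 6 = Real.exp 1 ^ 6 := by
    rw [← Real.exp_nat_mul]; norm_num
  rw [e]
  calc Real.exp 1 ^ 6 ≤ 2.7182818286 ^ 6 := pow_le_pow_left₀ (Real.exp_pos _).le h.le 6
    _ ≤ 404 := by norm_num

theorem choose_j {κ η : ℝ} (hκ : 0.69 < κ) (hη0 : 0 < η) (hη6 : η ≤ 1 / 6) :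
    ∃ j : ℕ, 4 / η * (1 + η) ^ (j + 1) * κ / 2 ^ j ≤ 1 / 16384 ∧
      (4 / η * (1 + η) ^ (2 * j + 1) * κ) ≤ 2 ^ j / 16384 ∧
      131072 * κ / η ≤ 2 ^ j ∧
      4 / η * (1 + η) ^ (2 * j + 1) * κ ≤ 850000000 / η * κ ^ (1 + 6 * η) := by
  have hκ0 : 0 < κ := by linarith
  obtain ⟨M, hM⟩ : ∃ M : ℝ, M = 131072 * κ / η := ⟨_, rfl⟩
  have hM1 : 1 ≤ M := by
    rw [hM, le_div_iff₀ hη0]
    nlinarith
  have hM0 : 0 < M := by linarith
  obtain ⟨x, hx⟩ : ∃ x : ℝ, x = M ^ (1 + 6 * η) := ⟨_, rfl⟩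
  have hMx : M ≤ x := by
    rw [hx]
    calc M = M ^ (1 : ℝ) := (Real.rpow_one M).symm
      _ ≤ M ^ (1 + 6 * η) := Real.rpow_le_rpow_of_exponent_le hM1 (by linarith)
  have hx1 : 1 ≤ x := hM1.trans hMx
  obtain ⟨n0, hn1, hn2⟩ := exists_nat_pow_near hx1 (one_lt_two)
  refine ⟨n0 + 1, ?_⟩
  obtain ⟨n, hn⟩ : ∃ n : ℝ, n = (2 : ℝ) ^ (n0 + 1) := ⟨_, rfl⟩
  have hxn : x ≤ n := by rw [hn]; exact hn2.le
  have hnx : n ≤ 2 * x := by rw [hn, pow_succ]; linarith
  have hn0 : 0 < n := by rw [hn]; positivity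
  have hn1' : 1 ≤ n := hx1.trans hxn
  -- powers of 1 + η
  have hpow : (1 + η) ^ (2 * (n0 + 1) + 1) ≤ 2 * n ^ (3 * η) := by
    have h1 : (1 + η) ^ 2 ≤ (2 : ℝ) ^ (3 * η) := by
      have h2 : 1 + η ≤ Real.exp η := by
        have := Real.add_one_le_exp η
        linarith
      calc (1 + η) ^ 2 ≤ (Real.exp η) ^ 2 := pow_le_pow_left₀ (by linarith) h2 2
        _ = Real.exp (2 * η) := by rw [← Real.exp_nat_mul]; norm_num
        _ ≤ Real.exp (Real.log 2 * (3 * η)) := by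
            apply Real.exp_le_exp.2
            have h3 : (0.69 : ℝ) < Real.log 2 := by
              have := Real.log_two_gt_d9
              linarith
            nlinarith
        _ = (2 : ℝ) ^ (3 * η) := by rw [Real.rpow_def_of_pos (by norm_num)]
    have h4 : ((2 : ℝ) ^ (3 * η)) ^ (n0 + 1) = n ^ (3 * η) := by
      rw [hn, ← Real.rpow_natCast ((2 : ℝ) ^ (3 * η)), ← Real.rpow_natCast (2 : ℝ), ← Real.rpow_mul (by norm_num),
        ← Real.rpow_mul (by norm_num)]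
      congr 1
      ring
    calc (1 + η) ^ (2 * (n0 + 1) + 1) = (1 + η) * ((1 + η) ^ 2) ^ (n0 + 1) := by
          rw [← pow_mul, pow_succ]; ring
      _ ≤ 2 * ((2 : ℝ) ^ (3 * η)) ^ (n0 + 1) := by
          apply mul_le_mul (by linarith) _ (by positivity) (by norm_num)
          exact pow_le_pow_left₀ (by positivity) h1 _
      _ = 2 * n ^ (3 * η) := by rw [h4]
  have hnη : 0 < n ^ (3 * η) := Real.rpow_pos_of_pos hn0 _
  have hnη1 : 1 ≤ n ^ (3 * η) := Real.one_le_rpow hn1' (by linarith)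
  -- n ≥ M n^{3η}
  have hMn : M * n ^ (3 * η) ≤ n := by
    have h1 : M ≤ n ^ (1 - 3 * η) := by
      calc M = M ^ (1 : ℝ) := (Real.rpow_one M).symm
        _ ≤ M ^ ((1 + 6 * η) * (1 - 3 * η)) := by
            apply Real.rpow_le_rpow_of_exponent_le hM1
            nlinarith
        _ = x ^ (1 - 3 * η) := by rw [hx, ← Real.rpow_mul hM0.le]
        _ ≤ n ^ (1 - 3 * η) := Real.rpow_le_rpow (by linarith) hxn (by linarith)
    calc M * n ^ (3 * η) ≤ n ^ (1 - 3 * η) * n ^ (3 * η) :=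
          mul_le_mul_of_nonneg_right h1 hnη.le
      _ = n := by
          rw [← Real.rpow_add hn0]
          norm_num
  have hb1 : 4 / η * (1 + η) ^ (2 * (n0 + 1) + 1) * κ ≤ 8 * κ / η * n ^ (3 * η) := by
    calc 4 / η * (1 + η) ^ (2 * (n0 + 1) + 1) * κ
        ≤ 4 / η * (2 * n ^ (3 * η)) * κ := by gcongr
      _ = 8 * κ / η * n ^ (3 * η) := by ring
  have hb2 : 8 * κ / η * n ^ (3 * η) * 16384 ≤ n := by
    calc 8 * κ / η * n ^ (3 * η) * 16384 = M * n ^ (3 * η) := by rw [hM]; ring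
      _ ≤ n := hMn
  have hb3 : 4 / η * (1 + η) ^ (2 * (n0 + 1) + 1) * κ ≤ n / 16384 := by
    rw [le_div_iff₀ (by norm_num)]
    nlinarith
  refine ⟨?_, ?_, ?_, ?_⟩
  · rw [div_le_iff₀ (by positivity), ← hn]
    have h1 : 4 / η * (1 + η) ^ (n0 + 1 + 1) * κ ≤ 4 / η * (1 + η) ^ (2 * (n0 + 1) + 1) * κ := by
      have : (1 + η) ^ (n0 + 1 + 1) ≤ (1 + η) ^ (2 * (n0 + 1) + 1) :=
        pow_le_pow_right₀ (by linarith) (by omega)
      gcongr
    linarith
  · rw [← hn]; exact hb3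
  · rw [← hn, ← hM]
    exact hMx.trans hxn
  · -- the bound by a power of κ
    have h1 : n ^ (3 * η) ≤ 2 * M ^ (6 * η) := by
      calc n ^ (3 * η) ≤ (2 * x) ^ (3 * η) := Real.rpow_le_rpow hn0.le hnx (by linarith)
        _ = 2 ^ (3 * η) * x ^ (3 * η) := Real.mul_rpow (by norm_num) (by linarith)
        _ ≤ 2 * M ^ (6 * η) := by
            apply mul_le_mul _ _ (by positivity) (by norm_num)
            · calc (2 : ℝ) ^ (3 * η) ≤ 2 ^ (1 : ℝ) :=
                    Real.rpow_le_rpow_of_exponent_le (by norm_num) (by linarith)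
                _ = 2 := Real.rpow_one 2
            · rw [hx, ← Real.rpow_mul hM0.le]
              apply Real.rpow_le_rpow_of_exponent_le hM1
              nlinarith
    have h2 : M ^ (6 * η) ≤ 131072 * 404 * κ ^ (6 * η) := by
      have e1 : M = 131072 * κ * η⁻¹ := by rw [hM]; ring
      rw [e1, Real.mul_rpow (by positivity) (by positivity), Real.mul_rpow (by norm_num) hκ0.le]
      have h3 : (131072 : ℝ) ^ (6 * η) ≤ 131072 := by
        calc (131072 : ℝ) ^ (6 * η) ≤ 131072 ^ (1 : ℝ) :=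
              Real.rpow_le_rpow_of_exponent_le (by norm_num) (by linarith)
          _ = 131072 := Real.rpow_one _
      have h4 : (η⁻¹) ^ (6 * η) ≤ 404 := by
        rw [Real.rpow_def_of_pos (by positivity)]
        refine le_trans (Real.exp_le_exp.2 ?_) exp_six
        have h5 : Real.log η⁻¹ ≤ η⁻¹ - 1 := Real.log_le_sub_one_of_pos (by positivity)
        have h6 : Real.log η⁻¹ * (6 * η) ≤ (η⁻¹ - 1) * (6 * η) :=
          mul_le_mul_of_nonneg_right h5 (by positivity)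
        have h7 : (η⁻¹ - 1) * (6 * η) = 6 - 6 * η := by
          field_simp
        linarith
      have h8 : 0 ≤ κ ^ (6 * η) := Real.rpow_nonneg hκ0.le _
      calc (131072 : ℝ) ^ (6 * η) * κ ^ (6 * η) * (η⁻¹) ^ (6 * η)
          ≤ 131072 * κ ^ (6 * η) * 404 := by gcongr
        _ = 131072 * 404 * κ ^ (6 * η) := by ring
    have h9 : κ ^ (1 + 6 * η) = κ * κ ^ (6 * η) := by
      rw [Real.rpow_add hκ0, Real.rpow_one]
    have h10 : 0 ≤ κ ^ (6 * η) := Real.rpow_nonneg hκ0.le _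
    calc 4 / η * (1 + η) ^ (2 * (n0 + 1) + 1) * κ ≤ 8 * κ / η * n ^ (3 * η) := hb1
      _ ≤ 8 * κ / η * (2 * (131072 * 404 * κ ^ (6 * η))) := by
          apply mul_le_mul_of_nonneg_left _ (by positivity)
          linarith
      _ = 847249408 / η * (κ * κ ^ (6 * η)) := by ring
      _ ≤ 850000000 / η * (κ * κ ^ (6 * η)) := by
          apply mul_le_mul_of_nonneg_right _ (by positivity)
          gcongr
          norm_num
      _ = 850000000 / η * κ ^ (1 + 6 * η) := by rw [h9]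

/-- the tail condition -/
theorem tail {κ η K : ℝ} {j : ℕ} (hκ : 0.69 < κ) (hη0 : 0 < η) (hη6 : η ≤ 1 / 6)
    (hlogK : Real.log K ≤ κ) {b D : ℝ} (hD : D = 2 / η * κ) (hb : b ≤ 2 ^ j / 16384)
    (hM : 131072 * κ / η ≤ 2 ^ j) :
    (1 / 4 : ℝ) ^ (2 ^ j) ≤ Real.exp (-(2 * b + 2 * Real.log K + 2 * D)) / 4 := by
  have hκ0 : 0 < κ := by linarith
  have e4 : Real.log 4 = 2 * Real.log 2 := by
    rw [show (4 : ℝ) = 2 ^ 2 by norm_num, Real.log_pow]; norm_num
  have h2 := Real.log_two_gt_d9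
  have h2' := Real.log_two_lt_d9
  have e1 : (1 / 4 : ℝ) ^ (2 ^ j) = Real.exp (-((2 : ℝ) ^ j * Real.log 4)) := by
    rw [one_div, inv_pow, Real.exp_neg]
    congr 1
    rw [← Real.exp_log (show (0 : ℝ) < 4 ^ (2 ^ j) by positivity), Real.log_pow]
    push_cast
    rfl
  have e2 : Real.exp (-(2 * b + 2 * Real.log K + 2 * D)) / 4 =
      Real.exp (-(2 * b + 2 * Real.log K + 2 * D) - Real.log 4) := by
    rw [Real.exp_sub, Real.exp_log (by norm_num)]
  rw [e1, e2]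
  apply Real.exp_le_exp.2
  have h3 : κ ≤ κ / η := by
    rw [le_div_iff₀ hη0]; nlinarith
  have h5 : 131072 * (κ / η) ≤ 2 ^ j := by
    have : 131072 * (κ / η) = 131072 * κ / η := by ring
    rw [this]; exact hM
  have h6 : D = 2 * (κ / η) := by rw [hD]; ring
  rw [e4, h6]
  nlinarith

end Pool.Agent.N427.PT
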