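import Pool.Agent.N427.PT.Struct
import Pool.Agent.N427.PT.Num
import Pool.Agent.H112R2.Final
set_option autoImplicit false

/-! Assembly: polynomially many translates. -/

namespace Pool.Agent.N427.PT

open Finset H112
open scoped Pointwise
open Pool.Agent.Y806.DF (Body lat Cov)

variable {G : Type*} [AddCommGroup G]

theorem le_two_rpow {κ η : ℝ} (hκ69 : 0.69 < κ) (hη0 : 0 < η) (hη1 : η ≤ 1) :
    κ ≤ 2 * κ ^ (1 + η) := by
  have hκ0 : 0 < κ := by linarith
  rw [Real.rpow_add hκ0, Real.rpow_one]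
  have h9 : (1 / 2 : ℝ) ≤ κ ^ η := by
    calc (1 / 2 : ℝ) ≤ (0.69 : ℝ) ^ (1 : ℝ) := by norm_num
      _ ≤ (0.69 : ℝ) ^ η := Real.rpow_le_rpow_of_exponent_ge (by norm_num) (by norm_num) hη1
      _ ≤ κ ^ η := Real.rpow_le_rpow (by norm_num) hκ69.le hη0.le
  calc κ = 2 * (κ * (1 / 2)) := by ring
    _ ≤ 2 * (κ * κ ^ η) := by gcongr

set_option maxHeartbeats 1000000 in
theorem main_fg [AddGroup.FG G] [DecidableEq G] {K : ℝ} {A : Finset G} (hA : A.Nonempty)
    (hK : ((A + A).card : ℝ) ≤ K * A.card) (hK1 : 1 ≤ K) {η : ℝ} (hη0 : 0 < η) (hη1 : η ≤ 1) :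
    ∃ (r : ℕ) (B : Set (Fin r → ℝ)) (θ : (Fin r → ℤ) →+ G) (H : AddSubgroup G) (T : Finset G),
      (r : ℝ) ≤ 13000 / η * Real.log (2 * K) ∧ Body B ∧ (lat B).Finite ∧ Finite H ∧
      ((lat B).ncard * Nat.card H : ℝ) ≤
        Real.exp (20000000000 / η * Real.log (2 * K) ^ (1 + η)) * A.card ∧
      (T.card : ℝ) ≤ (2 * K) ^ (5000 / η) ∧ Cov B θ H T A := by
  classical
  obtain ⟨κ, hκ⟩ : ∃ κ : ℝ, κ = Real.log (2 * K) := ⟨_, rfl⟩
  have hK0 : (0 : ℝ) < K := by linarith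
  have hκlog2 : Real.log 2 ≤ κ := by
    rw [hκ]; exact Real.log_le_log (by norm_num) (by linarith)
  have hκ69 : (0.69 : ℝ) < κ := by
    have := Real.log_two_gt_d9
    linarith
  have hκ0 : 0 < κ := by linarith
  have hlogK : Real.log K ≤ κ := by
    rw [hκ]; exact Real.log_le_log hK0 (by linarith)
  have hlogK0 : 0 ≤ Real.log K := Real.log_nonneg hK1
  have hApos : (0 : ℝ) < A.card := by exact_mod_cast hA.card_pos
  have hη' : 0 < η / 6 := by positivity
  obtain ⟨j, hj1, hj2, hj3, hj4⟩ := choose_j hκ69 hη' (by linarith : η / 6 ≤ 1 / 6)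
  obtain ⟨b, hb⟩ : ∃ b : ℝ, b = 4 / (η / 6) * (1 + η / 6) ^ (2 * j + 1) * κ := ⟨_, rfl⟩
  obtain ⟨D, hD⟩ : ∃ D : ℝ, D = 2 / (η / 6) * κ := ⟨_, rfl⟩
  obtain ⟨ε, hε⟩ : ∃ ε : ℝ, ε = 4 / (η / 6) * (1 + η / 6) ^ (j + 1) * κ / 2 ^ j := ⟨_, rfl⟩
  have hb2 : b ≤ 2 ^ j / 16384 := by rw [hb]; exact hj2
  have h4 := tail hκ69 hη' (by linarith : η / 6 ≤ 1 / 6) hlogK hD hb2 hj3
  obtain ⟨S, E, hEA, hEne, hfin, hsize, hcard, hEE⟩ :=
    large_part hA hK hη' (by linarith) j hκ hb hD hε h4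
  have hε0 : 0 ≤ ε := by rw [hε]; positivity
  have hε1 : ε ≤ 1 / 16384 := by rw [hε]; exact hj1
  obtain ⟨ρ, hρ⟩ : ∃ ρ : ℝ, ρ = 4 * Real.sqrt ε := ⟨_, rfl⟩
  have hρ0 : 0 ≤ ρ := by rw [hρ]; positivity
  have hρ12 : ρ ≤ 1 / 12 := by
    have h5 : Real.sqrt ε ≤ 1 / 128 := by
      rw [Real.sqrt_le_left (by norm_num)]
      refine hε1.trans (by norm_num)
    rw [hρ]; linarith
  rw [← hρ] at hEE
  have hEpos : (0 : ℝ) < E.card := by exact_mod_cast hEne.card_pos
  obtain ⟨K', hK'⟩ : ∃ K' : ℝ, K' = K * Real.exp (2 * D + 1) := ⟨_, rfl⟩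
  have hD0 : 0 ≤ D := by rw [hD]; positivity
  have hAE : ((A + E).card : ℝ) ≤ K' * E.card := by
    have h5 : ((A + E).card : ℝ) ≤ (A + A).card := by
      exact_mod_cast Finset.card_le_card (Finset.add_subset_add_left hEA)
    calc ((A + E).card : ℝ) ≤ K * A.card := h5.trans hK
      _ ≤ K * (Real.exp (2 * D + 1) * E.card) := mul_le_mul_of_nonneg_left hcard hK0.le
      _ = K' * E.card := by rw [hK']; ring
  have hEE2 : ((E + E).card : ℝ) ≤ K' * E.card := by
    refine le_trans ?_ hAE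
    exact_mod_cast Finset.card_le_card (Finset.add_subset_add_right hEA)
  obtain ⟨r, B, θ, E', hr, hB, hBfin, hBcard, hE'E, hE'ne, hE'card, hE'2⟩ :=
    reduce_dim hfin hρ0 hρ12 hEne hEE hEE2
  have hK'0 : 0 < K' := by rw [hK']; positivity
  have hE'pos : (0 : ℝ) < E'.card := by exact_mod_cast hE'ne.card_pos
  -- covering
  have hAE' : ((A + E').card : ℝ) ≤ (K' * K' ^ 185) * E'.card := by
    calc ((A + E').card : ℝ) ≤ (A + E).card := by
          exact_mod_cast Finset.card_le_card (Finset.add_subset_add_left hE'E)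
      _ ≤ K' * E.card := hAE
      _ ≤ K' * (K' ^ 185 * E'.card) := mul_le_mul_of_nonneg_left hE'card hK'0.le
      _ = (K' * K' ^ 185) * E'.card := by ring
  obtain ⟨T, hTA, hTcard, hT⟩ := Finset.ruzsa_covering_add hE'ne hAE'
  have hlogK' : Real.log K' = Real.log K + (2 * D + 1) := by
    rw [hK', Real.log_mul hK0.ne' (Real.exp_pos _).ne', Real.log_exp]
  have hκη : κ ≤ κ / η := by
    rw [le_div_iff₀ hη0]; nlinarith
  have hD' : D = 12 * (κ / η) := by rw [hD]; field_simp; ring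
  have hlogK'2 : Real.log K' ≤ 26.5 * (κ / η) := by
    rw [hlogK', hD']
    linarith
  have hann : Finite (ann S) := ann_finite hfin
  refine ⟨r, B, θ, ann S, T, ?_, hB, hBfin, hann, ?_, ?_, ?_⟩
  · rw [← hκ]
    refine hr.trans ?_
    have : 13000 / η * κ = 13000 * (κ / η) := by ring
    rw [this]
    linarith
  · rw [← hκ]
    have h5 : ((lat B).ncard * Nat.card (ann S) : ℝ) ≤ (bohr S (1 / 6)).ncard := by
      exact_mod_cast hBcard
    refine h5.trans (hsize.trans ?_)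
    apply mul_le_mul_of_nonneg_right _ hApos.le
    have h8 : (8 : ℝ) ≤ Real.exp (3.1 * κ) := by
      rw [← Real.log_le_iff_le_exp (by norm_num)]
      have : Real.log 8 = 3 * Real.log 2 := by
        rw [show (8 : ℝ) = 2 ^ 3 by norm_num, Real.log_pow]; norm_num
      rw [this]
      linarith
    have hb' : b ≤ 5100000000 / η * κ ^ (1 + η) := by
      have h9 : (1 : ℝ) + 6 * (η / 6) = 1 + η := by ring
      rw [h9] at hj4
      rw [hb]
      refine hj4.trans (le_of_eq ?_)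
      field_simp
      norm_num
    have hpow : κ ≤ 2 * κ ^ (1 + η) := le_two_rpow hκ69 hη0 hη1
    have hpow' : κ / η ≤ 2 * (κ ^ (1 + η) / η) := by
      rw [← mul_div_assoc]
      exact div_le_div_of_nonneg_right hpow hη0.le
    calc 8 * Real.exp (2 * b + 2 * Real.log K + 2 * D)
        ≤ Real.exp (3.1 * κ) * Real.exp (2 * b + 2 * Real.log K + 2 * D) := by gcongr
      _ = Real.exp (3.1 * κ + (2 * b + 2 * Real.log K + 2 * D)) := (Real.exp_add _ _).symm
      _ ≤ Real.exp (20000000000 / η * κ ^ (1 + η)) := by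
          apply Real.exp_le_exp.2
          have e1 : 5100000000 / η * κ ^ (1 + η) = 5100000000 * (κ ^ (1 + η) / η) := by ring
          have e2 : 20000000000 / η * κ ^ (1 + η) = 20000000000 * (κ ^ (1 + η) / η) := by ring
          rw [e1] at hb'
          rw [e2, hD']
          linarith
  · refine hTcard.trans ?_
    have h5 : K' * K' ^ 185 = Real.exp (186 * Real.log K') := by
      rw [← pow_succ', show (186 : ℝ) = ((186 : ℕ) : ℝ) by norm_num, Real.exp_nat_mul,
        Real.exp_log hK'0]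
    rw [h5, Real.rpow_def_of_pos (by linarith), ← hκ]
    apply Real.exp_le_exp.2
    have : κ * (5000 / η) = 5000 * (κ / η) := by ring
    rw [this]
    have hpos : 0 < κ / η := by positivity
    linarith
  · intro a ha
    obtain ⟨t, ht, y, hy, hty⟩ := Finset.mem_add.1 (hT ha)
    obtain ⟨u, hu, v, hv, huv⟩ := Finset.mem_sub.1 hy
    obtain ⟨w, hw, hw2⟩ := hE'2 u hu v hv
    refine ⟨t, ht, w, hw, u - v - θ w, hw2, ?_⟩
    rw [← hty, ← huv]
    abel

/-- **Polynomially many translates.** -/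
theorem main [DecidableEq G] {K : ℝ} {A : Finset G} (hA : A.Nonempty)
    (hK : ((A + A).card : ℝ) ≤ K * A.card) {η : ℝ} (hη0 : 0 < η) (hη1 : η ≤ 1) :
    ∃ (r : ℕ) (B : Set (Fin r → ℝ)) (θ : (Fin r → ℤ) →+ G) (H : AddSubgroup G) (T : Finset G),
      (r : ℝ) ≤ 13000 / η * Real.log (2 * K) ∧ Body B ∧ (lat B).Finite ∧ Finite H ∧
      ((lat B).ncard * Nat.card H : ℝ) ≤
        Real.exp (20000000000 / η * Real.log (2 * K) ^ (1 + η)) * A.card ∧
      (T.card : ℝ) ≤ (2 * K) ^ (5000 / η) ∧ Cov B θ H T A := by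
  classical
  have hApos : (0 : ℝ) < A.card := by exact_mod_cast hA.card_pos
  have hK1 : 1 ≤ K := by
    have h1 : (A.card : ℝ) ≤ (A + A).card := by
      exact_mod_cast Finset.card_le_card_add_right hA
    nlinarith
  obtain ⟨Γ, hΓ⟩ : ∃ Γ : AddSubgroup G, Γ = AddSubgroup.closure (A : Set G) := ⟨_, rfl⟩
  obtain ⟨A', hA'⟩ := exists_model A Γ (fun a ha => by
    rw [hΓ]; exact AddSubgroup.subset_closure ha)
  have hinj : Function.Injective Γ.subtype := Γ.subtype_injective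
  have : AddGroup.FG Γ := by
    rw [AddGroup.fg_iff_addSubgroup_fg]
    exact ⟨A, hΓ.symm⟩
  have hA'ne : A'.Nonempty := by
    rw [← hA'] at hA; exact Finset.image_nonempty.1 hA
  have hcard : A'.card = A.card := by
    rw [← hA', Finset.card_image_of_injective _ hinj]
  have hcard2 : (A' + A').card = (A + A).card := by
    rw [← hA', ← Finset.image_add, Finset.card_image_of_injective _ hinj]
  have hK' : ((A' + A').card : ℝ) ≤ K * A'.card := by rw [hcard2, hcard]; exact hK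
  obtain ⟨r, B, θ, H₀, T, hd, hB, hBfin, hH₀, hvol, hT, hcov⟩ := main_fg hA'ne hK' hK1 hη0 hη1
  refine ⟨r, B, Γ.subtype.comp θ, H₀.map Γ.subtype, T.image Γ.subtype, hd, hB, hBfin, ?_, ?_, ?_, ?_⟩
  · have : (H₀.map Γ.subtype : Set G).Finite := by
      rw [AddSubgroup.coe_map]
      exact (Set.toFinite (H₀ : Set Γ)).image _
    exact this.to_subtype
  · have h1 : Nat.card (H₀.map Γ.subtype) = Nat.card H₀ :=
      Nat.card_congr (H₀.equivMapOfInjective Γ.subtype hinj).toEquiv.symm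
    rw [h1, ← hcard]
    exact hvol
  · refine le_trans ?_ hT
    exact_mod_cast Finset.card_image_le
  · intro a ha
    rw [← hA'] at ha
    obtain ⟨a', ha', rfl⟩ := Finset.mem_image.1 ha
    obtain ⟨t, ht, c, hc, h, hh, e⟩ := hcov a' ha'
    refine ⟨Γ.subtype t, Finset.mem_image_of_mem _ ht, c, hc, Γ.subtype h, ⟨h, hh, rfl⟩, ?_⟩
    rw [e, map_add, map_add]
    rfl

end Pool.Agent.N427.PT
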