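import Pool.Agent.N427.PT.Growth
import Pool.Agent.H112R2.Main
import Pool.Agent.Y806.DF.C
set_option autoImplicit false

/-! A large part of the set in a Bohr set, and the reduction of the dimension. -/

namespace Pool.Agent.N427.PT

open Finset H112
open scoped Pointwise

section

variable {G : Type*} [AddCommGroup G]

/-- A large part of `A` has its differences in a Bohr set of controlled size. -/
theorem large_part [AddGroup.FG G] [DecidableEq G] {K : ℝ} {A : Finset G} (hA : A.Nonempty)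
    (hK : ((A + A).card : ℝ) ≤ K * A.card) {η : ℝ} (hη0 : 0 < η) (hη1 : η ≤ 1)
    (j : ℕ) {κ b D ε : ℝ}
    (hκ : κ = Real.log (2 * K)) (hb : b = 4 / η * (1 + η) ^ (2 * j + 1) * κ)
    (hD : D = 2 / η * κ) (hε : ε = 4 / η * (1 + η) ^ (j + 1) * κ / 2 ^ j)
    (h4 : (1 / 4 : ℝ) ^ (2 ^ j) ≤ Real.exp (-(2 * b + 2 * Real.log K + 2 * D)) / 4) :
    ∃ (S : Set (G →+ UnitAddCircle)) (E : Finset G), E ⊆ A ∧ E.Nonempty ∧
      (bohr S (1 / 6)).Finite ∧
      ((bohr S (1 / 6)).ncard : ℝ) ≤ (8 * Real.exp (2 * b + 2 * Real.log K + 2 * D)) * A.card ∧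
      (A.card : ℝ) ≤ Real.exp (2 * D + 1) * E.card ∧
      ∀ x ∈ E, ∀ y ∈ E, x - y ∈ bohr S (4 * Real.sqrt ε) := by
  classical
  obtain ⟨p₁, p₂, hp₁, hp₂, hs₁, hs₂, hH₁, hH₂, hgrow⟩ :=
    good_pair hA hK hη0 hη1 (2 * j + 1)
  set q := p₁ * p₂ with hq
  have hqlaw : Law q := hp₁.mul hp₂
  rw [← hκ] at hH₁ hH₂ hgrow
  have hD₁ : Real.log A.card - D ≤ H p₁ := by rw [hD]; exact hH₁
  have hn1 : 1 ≤ 2 ^ j := Nat.one_le_two_pow
  have hg1 : H (q ^ (2 * 2 ^ j * 2 ^ j)) ≤ (H p₁ + H p₂) / 2 + b := by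
    have e1 : 2 * 2 ^ j * 2 ^ j = 2 ^ (2 * j + 1) := by ring
    rw [e1]
    refine (hgrow (2 * j + 1) le_rfl).trans (le_of_eq ?_)
    rw [hb]
  have hsz := bohr_size hA hK hp₁ hp₂ hs₁ hs₂ hD₁ (n := 2 ^ j) (m := 2 ^ j) hn1 hn1
    (b := b) hg1 h4
  have hinc : H (q ^ (2 ^ j + 1)) - H q ≤ ((2 ^ j : ℕ) : ℝ) * ε := by
    have h1 : H (q ^ (2 ^ j + 1)) ≤ H (q ^ (2 ^ (j + 1))) := by
      have e1 : q ^ (2 ^ (j + 1)) = q ^ (2 ^ j + 1) * q ^ (2 ^ j - 1) := by
        rw [← pow_add]; congr 1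
        have : 2 ^ (j + 1) = 2 ^ j + 2 ^ j := by ring
        omega
      rw [e1]
      exact H_le_mul (hqlaw.pow _) (hqlaw.pow _)
    have h2 := hgrow (j + 1) (by omega)
    have h3 : (H p₁ + H p₂) / 2 ≤ H q := by
      have a1 : H p₁ ≤ H q := H_le_mul hp₁ hp₂
      have a2 : H p₂ ≤ H q := by
        rw [hq, mul_comm]; exact H_le_mul hp₂ hp₁
      linarith
    have h4' : ((2 ^ j : ℕ) : ℝ) * ε = 4 / η * (1 + η) ^ (j + 1) * κ := by
      rw [hε]; push_cast
      field_simp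
    rw [h4']
    linarith
  obtain ⟨E, hEA, hEcard, hE⟩ := near_invariance hp₁ hp₂ hs₁ hn1 hD₁ hinc
  rw [← hq] at hE
  have hApos : (0 : ℝ) < A.card := by exact_mod_cast hA.card_pos
  have hEpos : (0 : ℝ) < E.card := lt_of_lt_of_le (by positivity) hEcard
  have hEne : E.Nonempty := by
    rw [← Finset.card_pos]; exact_mod_cast hEpos
  refine ⟨{γ | 1 / 2 ≤ ‖ft (q ^ 2 ^ j) γ‖}, E, hEA, hEne, hsz.1, ?_, ?_, ?_⟩
  · refine hsz.2.trans (le_of_eq ?_)
    ring
  · have h3 : (A.card : ℝ) = Real.exp (2 * D + 1) * (A.card * Real.exp (-(2 * D + 1))) := by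
      rw [Real.exp_neg]; field_simp
    rw [h3]
    exact mul_le_mul_of_nonneg_left hEcard (Real.exp_pos _).le
  · intro x hx y hy γ hγ
    exact hE x hx y hy γ hγ

open Pool.Agent.Y806.DF

/-- The dimension is reduced by the weak Marton theorem in the covering group. -/
theorem reduce_dim [DecidableEq G] {S : Set (G →+ UnitAddCircle)}
    (hfin : (bohr S (1 / 6)).Finite) {ρ : ℝ} (hρ0 : 0 ≤ ρ) (hρ : ρ ≤ 1 / 12)
    {E : Finset G} (hE : E.Nonempty) (hEE : ∀ x ∈ E, ∀ y ∈ E, x - y ∈ bohr S ρ)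
    {K : ℝ} (hK : ((E + E).card : ℝ) ≤ K * E.card) :
    ∃ (r : ℕ) (B : Set (Fin r → ℝ)) (θ : (Fin r → ℤ) →+ G) (E' : Finset G),
      (r : ℝ) ≤ 480 * Real.log K + 1 ∧ Body B ∧ (lat B).Finite ∧
      (lat B).ncard * Nat.card (ann S) ≤ (bohr S (1 / 6)).ncard ∧
      E' ⊆ E ∧ E'.Nonempty ∧ (E.card : ℝ) ≤ K ^ 185 * E'.card ∧
      ∀ x ∈ E', ∀ y ∈ E', ∃ v ∈ lat B, x - y - θ v ∈ ann S := by
  classical
  obtain ⟨m, N, ψ, hN, h1, h2, -⟩ := lattice_repr S hfin hρ0 (hρ.trans (by norm_num))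
  have := ann_finite hfin
  obtain ⟨e₀, he₀⟩ := hE
  -- the lift
  have hlift : ∀ x : G, x ∈ E → ∃ z : (Fin m → ℤ) × ann S,
      z.1 ∈ LL N ρ ∧ x = e₀ + ψ z.1 + z.2 := by
    intro x hx
    obtain ⟨c, hc, hc2⟩ := h2 (x - e₀) (hEE x hx e₀ he₀)
    refine ⟨(c, ⟨x - e₀ - ψ c, hc2⟩), hc, ?_⟩
    show x = e₀ + ψ c + (x - e₀ - ψ c)
    abel
  choose! f hf1 hf2 using hlift
  set F : Finset ((Fin m → ℤ) × ann S) := E.image f with hF
  have hfinj : Set.InjOn f (E : Set G) := by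
    intro x hx y hy hxy
    rw [hf2 x hx, hf2 y hy, hxy]
  have hFcard : F.card = E.card := Finset.card_image_of_injOn hfinj
  have hFne : F.Nonempty := ⟨f e₀, Finset.mem_image_of_mem _ he₀⟩
  have hFmem : ∀ z ∈ F, z.1 ∈ LL N ρ ∧ e₀ + ψ z.1 + z.2 ∈ E := by
    intro z hz
    obtain ⟨x, hx, rfl⟩ := Finset.mem_image.1 hz
    exact ⟨hf1 x hx, by rw [← hf2 x hx]; exact hx⟩
  -- doubling of the lift
  have hLadd : ∀ {a b : ℝ} {c d : Fin m → ℤ}, c ∈ LL N a → d ∈ LL N b → c + d ∈ LL N (a + b) := by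
    intro a b c d hc hd
    have e : (fun i => (((c + d) i : ℤ) : ℝ)) = (fun i => (c i : ℝ)) + (fun i => (d i : ℝ)) := by
      funext i; simp
    show N _ ≤ a + b
    rw [e]
    exact (map_add_le_add N _ _).trans (add_le_add hc hd)
  have hFF : ((F + F).card : ℝ) ≤ K * F.card := by
    have h3 : (F + F).card ≤ (E + E).card := by
      refine Finset.card_le_card_of_injOn (fun z => e₀ + e₀ + ψ z.1 + z.2) ?_ ?_
      · intro z hz
        obtain ⟨a, ha, b, hb, rfl⟩ := Finset.mem_add.1 (Finset.mem_coe.1 hz)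
        rw [Finset.mem_coe]
        have e : e₀ + e₀ + ψ (a + b).1 + ((a + b).2 : G) =
            (e₀ + ψ a.1 + a.2) + (e₀ + ψ b.1 + b.2) := by
          show e₀ + e₀ + ψ (a.1 + b.1) + ((a.2 + b.2 : ann S) : G) = _
          rw [map_add, AddSubgroup.coe_add]
          abel
        show e₀ + e₀ + ψ (a + b).1 + ((a + b).2 : G) ∈ E + E
        rw [e]
        exact Finset.add_mem_add (hFmem a ha).2 (hFmem b hb).2
      · intro z hz w hw hzw
        obtain ⟨a, ha, b, hb, rfl⟩ := Finset.mem_add.1 (Finset.mem_coe.1 hz)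
        obtain ⟨a', ha', b', hb', rfl⟩ := Finset.mem_add.1 (Finset.mem_coe.1 hw)
        have hz1 : (a + b).1 ∈ LL N (ρ + ρ) := hLadd (hFmem a ha).1 (hFmem b hb).1
        have hw1 : (a' + b').1 ∈ LL N (ρ + ρ) := hLadd (hFmem a' ha').1 (hFmem b' hb').1
        simp only at hzw
        have hd : (a + b).1 - (a' + b').1 ∈ LL N (ρ + ρ + (ρ + ρ)) := LL_add N hz1 hw1
        have hd2 : N (fun i => ((((a + b).1 - (a' + b').1) i : ℤ) : ℝ)) < 1 / 2 := by
          have : N (fun i => ((((a + b).1 - (a' + b').1) i : ℤ) : ℝ)) ≤ ρ + ρ + (ρ + ρ) := hd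
          linarith
        have hd3 : ψ ((a + b).1 - (a' + b').1) ∈ ann S := by
          rw [map_sub]
          have : ψ (a + b).1 - ψ (a' + b').1 = ((a' + b').2 : G) - ((a + b).2 : G) := by
            rw [add_assoc, add_assoc (e₀ + e₀)] at hzw
            have h5 := add_left_cancel hzw
            rw [sub_eq_sub_iff_add_eq_add, add_comm (((a' + b').2 : ann S) : G)]
            exact h5
          rw [this]
          exact (ann S).sub_mem (a' + b').2.2 (a + b).2.2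
        have hd4 : (a + b).1 - (a' + b').1 ∈ LL N 0 :=
          (h1 _ hd2 0 le_rfl).1 (bohr_zero_of_ann hd3 le_rfl)
        have hd5 : (a + b).1 = (a' + b').1 := sub_eq_zero.1 (LL_zero hN hd4)
        rw [hd5] at hzw
        have hd6 : (a + b).2 = (a' + b').2 := Subtype.ext (add_left_cancel hzw)
        exact Prod.ext hd5 hd6
    rw [hFcard]
    exact (by exact_mod_cast h3 : ((F + F).card : ℝ) ≤ (E + E).card).trans hK
  -- weak Marton
  obtain ⟨P, S₀, T, hPfin, hS₀, hTF, hT, hcov⟩ := wm K F hFne hFF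
  have htor : ∀ (n : ℕ) (x : Fin m → ℤ), n ≠ 0 → n • x = 0 → x = 0 := by
    intro n x hn h
    funext i
    have h3 : (n : ℤ) * x i = 0 := by
      have h4 : (n • x) i = 0 := congrFun h i
      rw [Pi.smul_apply, nsmul_eq_mul] at h4
      exact h4
    rcases mul_eq_zero.1 h3 with h4 | h4
    · exact absurd (by exact_mod_cast h4) hn
    · exact h4
  have hP : ∀ z ∈ P, z.1 = 0 := by
    intro z hz
    have h3 := addOrderOf_pos (⟨z, hz⟩ : P)
    have h4 := addOrderOf_nsmul_eq_zero (⟨z, hz⟩ : P)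
    have h5 : addOrderOf (⟨z, hz⟩ : P) • z = 0 := congrArg Subtype.val h4
    exact htor _ z.1 h3.ne' (congrArg Prod.fst h5)
  set Λ := Submodule.span ℤ ((S₀.image Prod.fst : Finset (Fin m → ℤ)) : Set (Fin m → ℤ)) with hΛ
  have hclos : ∀ z ∈ P ⊔ AddSubgroup.closure (S₀ : Set ((Fin m → ℤ) × ann S)), z.1 ∈ Λ := by
    intro z hz
    obtain ⟨p, hp, s, hs, rfl⟩ := AddSubgroup.mem_sup.1 hz
    have h3 : (p + s).1 = s.1 := by
      rw [Prod.fst_add, hP p hp, zero_add]
    rw [h3]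
    refine AddSubgroup.closure_induction (p := fun z _ => z.1 ∈ Λ) ?_ ?_ ?_ ?_ hs
    · intro x hx
      exact Submodule.subset_span (by
        rw [Finset.coe_image]
        exact ⟨x, hx, rfl⟩)
    · exact Λ.zero_mem
    · intro x y _ _ hx hy
      exact Λ.add_mem hx hy
    · intro x _ hx
      exact Λ.neg_mem hx
  have hcov' : ∀ a ∈ F, ∃ t ∈ T, a.1 - t.1 ∈ Λ := by
    intro a ha
    obtain ⟨t, ht, o, ⟨n, hn, hno⟩, hmem⟩ := hcov a ha
    have ho : o.1 = 0 := htor n o.1 (by rintro rfl; exact absurd hn (by decide))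
      (congrArg Prod.fst hno)
    refine ⟨t, ht, ?_⟩
    have h3 := hclos _ hmem
    have h4 : (a - t - o).1 = a.1 - t.1 := by
      rw [Prod.fst_sub, Prod.fst_sub, ho, sub_zero]
    rwa [h4] at h3
  obtain ⟨t, ht, ht2⟩ := pigeon T F F hFne (fun t a => a.1 - t.1 ∈ Λ) (Finset.Subset.refl F) hcov'
  set F' := F.filter (fun a => a.1 - t.1 ∈ Λ) with hF'
  -- a basis
  let b := Module.finBasis ℤ Λ
  let e := b.equivFun
  let φ : (Fin (Module.finrank ℤ Λ) → ℤ) →+ (Fin m → ℤ) :=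
    (Λ.subtype.comp (e.symm : (Fin (Module.finrank ℤ Λ) → ℤ) →ₗ[ℤ] Λ)).toAddMonoidHom
  have hφ : Function.Injective φ := by
    intro x y hxy
    exact e.symm.injective (Subtype.ext hxy)
  obtain ⟨hLfin, hLcard⟩ := card_LL_le hfin hN h1 (R := ρ + ρ) (by linarith) (by linarith)
  set Z : Set (Fin (Module.finrank ℤ Λ) → ℤ) := {v | φ v ∈ LL N (ρ + ρ)} with hZ
  have hZfin : Z.Finite := hLfin.preimage (fun x _ y _ h => hφ h)
  set B := convexHull ℝ (re '' Z) with hB
  have hDfin : (re '' Z).Finite := hZfin.image re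
  have hN1 : ∀ v : Fin (Module.finrank ℤ Λ) → ℤ, N (ext φ (re v)) = N (fun i => (φ v i : ℝ)) := by
    intro v
    rw [ext_re]
    rfl
  have hBN : ∀ x ∈ B, N (ext φ x) ≤ ρ + ρ := by
    have hconv : Convex ℝ {x : Fin (Module.finrank ℤ Λ) → ℝ | N (ext φ x) ≤ ρ + ρ} := by
      intro x hx y hy a c ha hc hac
      show N (ext φ (a • x + c • y)) ≤ ρ + ρ
      rw [map_add, map_smul, map_smul]
      refine (map_add_le_add N _ _).trans ?_
      rw [map_smul_eq_mul, map_smul_eq_mul, Real.norm_eq_abs, Real.norm_eq_abs, abs_of_nonneg ha,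
        abs_of_nonneg hc]
      have hx' : N (ext φ x) ≤ ρ + ρ := hx
      have hy' : N (ext φ y) ≤ ρ + ρ := hy
      calc a * N (ext φ x) + c * N (ext φ y) ≤ a * (ρ + ρ) + c * (ρ + ρ) :=
            add_le_add (mul_le_mul_of_nonneg_left hx' ha) (mul_le_mul_of_nonneg_left hy' hc)
        _ = ρ + ρ := by rw [← add_mul, hac, one_mul]
    intro x hx
    refine convexHull_min ?_ hconv hx
    rintro _ ⟨v, hv, rfl⟩
    show N (ext φ (re v)) ≤ ρ + ρ
    rw [hN1]
    exact hv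
  have hsym : Sym B := by
    refine ⟨convex_convexHull ℝ _, hDfin.isCompact_convexHull ℝ, ?_, ?_⟩
    · have hneg : -(re '' Z) = re '' Z := by
        have hsub : ∀ x, x ∈ re '' Z → -x ∈ re '' Z := by
          rintro _ ⟨v, hv, rfl⟩
          refine ⟨-v, ?_, re_neg v⟩
          show N (fun i => (φ (-v) i : ℝ)) ≤ ρ + ρ
          have e3 : (fun i => ((φ (-v)) i : ℝ)) = -(fun i => (φ v i : ℝ)) := by
            funext i
            rw [map_neg]
            exact Int.cast_neg _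
          rw [e3, map_neg_eq_map]
          exact hv
        ext x
        rw [Set.mem_neg]
        refine ⟨fun h => ?_, fun h => hsub x h⟩
        have := hsub _ h
        rwa [neg_neg] at this
      intro x hx
      have h3 : -B = B := by rw [hB, ← convexHull_neg, hneg]
      rw [← h3, Set.mem_neg, neg_neg]
      exact hx
    · refine ⟨re 0, subset_convexHull ℝ _ ⟨0, ?_, rfl⟩⟩
      show N (fun i => (φ 0 i : ℝ)) ≤ ρ + ρ
      have e3 : (fun i => ((φ 0) i : ℝ)) = (0 : Fin m → ℝ) := by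
        funext i
        rw [map_zero]
        exact Int.cast_zero
      rw [e3, map_zero]
      linarith
  obtain ⟨B', hB', hlat⟩ := fatten hsym
  have hlatZ : ∀ v, v ∈ lat B' ↔ v ∈ Z := by
    intro v
    rw [hlat]
    constructor
    · intro hv
      have h3 := hBN _ hv
      rw [hN1] at h3
      exact h3
    · intro hv
      exact subset_convexHull ℝ _ ⟨v, hv, rfl⟩
  have hlatfin : (lat B').Finite := hZfin.subset (fun v hv => (hlatZ v).1 hv)
  have hlatcard : (lat B').ncard ≤ (LL N (ρ + ρ)).ncard := by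
    refine Set.ncard_le_ncard_of_injOn φ ?_ (fun x _ y _ h => hφ h) hLfin
    intro v hv
    exact (hlatZ v).1 hv
  refine ⟨Module.finrank ℤ Λ, B', ψ.comp φ, E.filter (fun x => f x ∈ F'), ?_, hB', hlatfin, ?_,
    Finset.filter_subset _ _, ?_, ?_, ?_⟩
  · have h3 : (Module.finrank ℤ Λ : ℝ) ≤ S₀.card := by
      have h4 := finrank_span_finset_le_card (R := ℤ) (S₀.image Prod.fst)
      have h5 : Module.finrank ℤ Λ ≤ (S₀.image Prod.fst).card := h4
      exact_mod_cast h5.trans Finset.card_image_le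
    exact h3.trans hS₀
  · exact (Nat.mul_le_mul_right _ hlatcard).trans hLcard
  · -- nonempty
    have htF' : t ∈ F' := Finset.mem_filter.2 ⟨hTF ht, by rw [sub_self]; exact Λ.zero_mem⟩
    obtain ⟨x, hx, hxt⟩ := Finset.mem_image.1 (hTF ht)
    exact ⟨x, Finset.mem_filter.2 ⟨hx, by rw [hxt]; exact htF'⟩⟩
  · have h3 : F'.card ≤ (E.filter (fun x => f x ∈ F')).card := by
      have h4 : F' ⊆ (E.filter (fun x => f x ∈ F')).image f := by
        intro z hz
        obtain ⟨x, hx, hxz⟩ := Finset.mem_image.1 (Finset.mem_filter.1 hz).1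
        exact Finset.mem_image.2 ⟨x, Finset.mem_filter.2 ⟨hx, by rw [hxz]; exact hz⟩, hxz⟩
      exact (Finset.card_le_card h4).trans Finset.card_image_le
    calc (E.card : ℝ) = F.card := by rw [hFcard]
      _ ≤ T.card * F'.card := by exact_mod_cast ht2
      _ ≤ K ^ 185 * (E.filter (fun x => f x ∈ F')).card :=
        mul_le_mul hT (Nat.cast_le.2 h3) (Nat.cast_nonneg _) (le_trans (Nat.cast_nonneg _) hT)
  · intro x hx y hy
    obtain ⟨hxE, hx2⟩ := Finset.mem_filter.1 hx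
    obtain ⟨hyE, hy2⟩ := Finset.mem_filter.1 hy
    have h3 : (f x).1 - (f y).1 ∈ Λ := by
      have h4 := Λ.sub_mem (Finset.mem_filter.1 hx2).2 (Finset.mem_filter.1 hy2).2
      have e3 : (f x).1 - t.1 - ((f y).1 - t.1) = (f x).1 - (f y).1 := by abel
      rwa [e3] at h4
    have e2 : φ (e ⟨(f x).1 - (f y).1, h3⟩) = (f x).1 - (f y).1 := by
      show ((e.symm (e ⟨(f x).1 - (f y).1, h3⟩) : Λ) : Fin m → ℤ) = _
      rw [LinearEquiv.symm_apply_apply]
    refine ⟨e ⟨(f x).1 - (f y).1, h3⟩, ?_, ?_⟩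
    · rw [hlatZ]
      show φ _ ∈ LL N (ρ + ρ)
      rw [e2]
      exact LL_add N (hf1 x hxE) (hf1 y hyE)
    · show x - y - ψ (φ _) ∈ ann S
      rw [e2, map_sub]
      have a1 : x - e₀ - ψ (f x).1 = ((f x).2 : G) := by
        have := hf2 x hxE
        rw [sub_sub, sub_eq_iff_eq_add']
        exact this
      have a2 : y - e₀ - ψ (f y).1 = ((f y).2 : G) := by
        have := hf2 y hyE
        rw [sub_sub, sub_eq_iff_eq_add']
        exact this
      have e4 : x - y - (ψ (f x).1 - ψ (f y).1) = ((f x).2 : G) - ((f y).2 : G) := by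
        rw [← a1, ← a2]
        abel
      rw [e4]
      exact (ann S).sub_mem (f x).2.2 (f y).2.2

end

end Pool.Agent.N427.PT
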